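import Mathlib
import Pool.Agent.H20.HomLim

universe u

namespace Pool.Agent.Results.MP_f6eb76_al.Embeds

variable {K G V : Type u} [CommRing K] [Group G] [AddCommGroup V] [Module K V]

def IsFGSubrep (ρ : Representation K G V) (H : Subgroup G) (W : Submodule K V) : Prop :=
  H.FG ∧ ∃ S : Finset V, W = Submodule.span K {v | ∃ h ∈ H, ∃ s ∈ S, v = ρ h s}

def IsHomogeneous (ρ : Representation K G V) : Prop :=
  ∀ (H₁ H₂ : Subgroup G) (W₁ W₂ : Submodule K V), IsFGSubrep ρ H₁ W₁ → IsFGSubrep ρ H₂ W₂ →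
    ∀ (α : W₁ ≃ₗ[K] W₂) (β : H₁ ≃* H₂),
      (∀ (h : H₁) (w w' : W₁), (w' : V) = ρ h w → (α w' : V) = ρ (β h) (α w)) →
      ∃ (a : V ≃ₗ[K] V) (b : G ≃* G), (∀ g v, a (ρ g v) = ρ (b g) (a v)) ∧
        (∀ w : W₁, a w = α w) ∧ ∀ h : H₁, b h = β h

theorem result (K G V : Type u) [CommRing K] [Group G] [AddCommGroup V] [Module K V]
    (ρ : Representation K G V) :
    ∃ (G' V' : Type u) (_ : Group G') (_ : AddCommGroup V') (_ : Module K V')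
      (ρ' : Representation K G' V'), IsHomogeneous ρ' ∧
      ∃ (a : V →ₗ[K] V') (b : G →* G'), Function.Injective a ∧ Function.Injective b ∧
        ∀ g v, a (ρ g v) = ρ' (b g) (a v) := by
  let A : Pool.Agent.H20.Hom.R K := ⟨G, V, ρ⟩
  let L := Pool.Agent.H20.Hom.lim A
  let e := Pool.Agent.H20.Hom.oE A 0
  refine ⟨L.G, L.V, inferInstance, inferInstance, inferInstance, L.ρ, ?_,
    e.a, e.b, e.ha, e.hb, e.comp⟩
  rintro H₁ H₂ W₁ W₂ ⟨h₁, S₁, hS₁⟩ ⟨h₂, S₂, hS₂⟩ α β hc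
  obtain ⟨t, ht1, ht2⟩ := Pool.Agent.H20.Hom.inner A H₁ H₂ W₁ W₂ h₁ h₂ S₁ S₂ hS₁ hS₂ α β hc
  refine ⟨LinearEquiv.ofLinear (L.ρ t) (L.ρ t⁻¹) ?_ ?_, MulAut.conj t, fun g v => ?_, ht2, ht1⟩
  · rw [← Module.End.mul_eq_comp, ← map_mul, mul_inv_cancel, map_one]; rfl
  · rw [← Module.End.mul_eq_comp, ← map_mul, inv_mul_cancel, map_one]; rfl
  · change (L.ρ t * L.ρ g) v = (L.ρ (t * g * t⁻¹) * L.ρ t) v
    rw [← map_mul, ← map_mul, inv_mul_cancel_right]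

end Pool.Agent.Results.MP_f6eb76_al.Embeds
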